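import Pool.Agent.N385.HB.Geom

set_option autoImplicit false

namespace Pool.Agent.Results.MP_8cfbc5_co.BadTriangleThreshold

open Finset Pool.Agent.N385.HB

/-- The real Hilbert space `ℓ²`. -/
abbrev H : Type := lp (fun _ : ℕ => ℝ) 2

/-- Three points form a bad triangle for `δ`: two of the three distances are at most `1` and the
remaining one is at least `1 + δ`. -/
def BadTriangle (δ : ℝ) (a b c : H) : Prop :=
  (dist a b ≤ 1 ∧ dist b c ≤ 1 ∧ 1 + δ ≤ dist a c) ∨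
  (dist b c ≤ 1 ∧ dist a c ≤ 1 ∧ 1 + δ ≤ dist a b) ∨
  (dist a b ≤ 1 ∧ dist a c ≤ 1 ∧ 1 + δ ≤ dist b c)

/-- Property `P(δ)`: there is `l > 0` such that among any `n ≥ 1` points of `ℓ²` (given with
indices, repetitions allowed) there are at least `l * n` indices no three distinct ones of which
give a bad triangle. -/
def PropertyP (δ : ℝ) : Prop :=
  ∃ l : ℝ, 0 < l ∧ ∀ n : ℕ, 1 ≤ n → ∀ x : Fin n → H, ∃ I : Finset (Fin n),
    l * n ≤ I.card ∧ ∀ i ∈ I, ∀ j ∈ I, ∀ k ∈ I, i ≠ j → j ≠ k → i ≠ k →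
      ¬ BadTriangle δ (x i) (x j) (x k)

/-- the standard orthonormal sequence -/
lemma orthonormal_single : Orthonormal ℝ (fun n : ℕ => (lp.single 2 n (1 : ℝ) : H)) := by
  rw [orthonormal_iff_ite]
  intro i j
  rw [lp.inner_single_left]
  by_cases h : i = j
  · subst h
    simp
  · rw [if_neg h]
    simp [lp.single_apply, h]

lemma exists_orthonormal (ι : Type) [Fintype ι] : ∃ e : ι → H, Orthonormal ℝ e :=
  ⟨_, orthonormal_single.comp (fun i : ι => ((Fintype.equivFin ι i : Fin _) : ℕ))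
    (Fin.val_injective.comp (Fintype.equivFin ι).injective)⟩

lemma exists_M {κ : ℝ} (hκ : 0 < κ) : ∃ M : ℕ, ∃ _ : NeZero M, 2 ≤ M ∧
    4 - κ ≤ ‖(ZMod.stdAddChar (1 : ZMod M) : ℂ) + 1‖ ^ 2 := by
  have hc : Filter.Tendsto (fun n : ℕ => ‖Complex.exp (2 * Real.pi * Complex.I * (((n : ℝ)⁻¹ : ℝ) : ℂ)) + 1‖ ^ 2)
      Filter.atTop (nhds (‖Complex.exp (2 * Real.pi * Complex.I * ((0 : ℝ) : ℂ)) + 1‖ ^ 2)) := by
    have h1 : Continuous (fun t : ℝ => ‖Complex.exp (2 * Real.pi * Complex.I * ((t : ℝ) : ℂ)) + 1‖ ^ 2) := by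
      fun_prop
    exact (h1.tendsto 0).comp tendsto_inv_atTop_nhds_zero_nat
  have h4 : ‖Complex.exp (2 * Real.pi * Complex.I * ((0 : ℝ) : ℂ)) + 1‖ ^ 2 = 4 := by
    simp
    norm_num
  rw [h4] at hc
  have h2 : ∀ᶠ n : ℕ in Filter.atTop, 4 - κ ≤
      ‖Complex.exp (2 * Real.pi * Complex.I * (((n : ℝ)⁻¹ : ℝ) : ℂ)) + 1‖ ^ 2 :=
    hc.eventually_const_le (by linarith)
  obtain ⟨n, hn, hn2⟩ := (h2.and (Filter.eventually_ge_atTop 2)).exists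
  refine ⟨n, ⟨by omega⟩, hn2, ?_⟩
  have : NeZero n := ⟨by omega⟩
  have h5 := ZMod.stdAddChar_coe (N := n) (1 : ℤ)
  rw [Int.cast_one] at h5
  rw [h5]
  convert hn using 5
  push_cast
  ring

/-- The negative part. -/
lemma not_P {δ : ℝ} (h0 : 0 < δ) (h1 : δ < 1) : ¬ PropertyP δ := by
  rintro ⟨l, hl, hP⟩
  set κ : ℝ := (4 - (1 + δ) ^ 2) / 9 with hκdef
  have hκ : 0 < κ := by rw [hκdef]; nlinarith
  have hκ1 : κ < 1 / 2 := by rw [hκdef]; nlinarith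
  obtain ⟨M, hne, hM, hMc⟩ := exists_M hκ
  obtain ⟨k, hk⟩ := exists_nat_gt (2 / (κ * l))
  obtain ⟨N, hN⟩ := exists_nat_gt (4 / (κ ^ 2 * l ^ 2))
  have hk0 : (0 : ℝ) < k := lt_trans (by positivity) hk
  have hN0 : (0 : ℝ) < N := lt_trans (by positivity) hN
  have hkk : 2 ≤ κ * l * k := by
    rw [div_lt_iff₀ (by positivity)] at hk
    linarith
  have hNN : 4 < κ ^ 2 * l ^ 2 * N := by
    rw [div_lt_iff₀ (by positivity)] at hN
    linarith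
  have hk1 : 0 < k := by exact_mod_cast hk0
  have hN1 : 0 < N := by exact_mod_cast hN0
  have hphi := phi_one_pos (M := M) hM
  have hpos : 0 < 2 * N * phi (1 : ZMod M) := by positivity
  obtain ⟨e, he⟩ := exists_orthonormal ((Fin N × Fin k) × Fin 2)
  have hMM : (1 + δ) ^ 2 ≤ (1 - 2 * κ) * ‖(ZMod.stdAddChar (1 : ZMod M) : ℂ) + 1‖ ^ 2 := by
    have h2 : (1 - 2 * κ) * (4 - κ) ≤ (1 - 2 * κ) * ‖(ZMod.stdAddChar (1 : ZMod M) : ℂ) + 1‖ ^ 2 :=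
      mul_le_mul_of_nonneg_left hMc (by linarith)
    have h3 : (1 + δ) ^ 2 = 4 - 9 * κ := by rw [hκdef]; ring
    nlinarith
  let G := Fin N × Fin k → ZMod M
  let eq := Fintype.equivFin G
  have hcard : 1 ≤ Fintype.card G := Fintype.card_pos
  obtain ⟨I, hI, hbad⟩ := hP (Fintype.card G) hcard
    (fun i => pnt (√(2 * N * phi (1 : ZMod M)))⁻¹ e (eq.symm i))
  obtain ⟨y, hy, x, hx, z, hz, d1, d2, d3⟩ := find (δ := δ) (H := H) hM hN1 hk1 hκ hκ1 hl (by linarith) hkk hNN hMM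
    (ρ := (√(2 * N * phi (1 : ZMod M)))⁻¹) (by positivity)
    (by rw [inv_pow, Real.sq_sqrt hpos.le]; exact inv_mul_cancel₀ hpos.ne') he
    (I.map eq.symm.toEmbedding) (by rw [card_map]; exact hI)
  obtain ⟨i, hi, rfl⟩ := mem_map.1 hy
  obtain ⟨j, hj, rfl⟩ := mem_map.1 hx
  obtain ⟨m, hm, rfl⟩ := mem_map.1 hz
  have hji : j ≠ i := by
    rintro rfl
    linarith
  have him : i ≠ m := by
    rintro rfl
    rw [dist_comm] at d3
    linarith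
  have hjm : j ≠ m := by
    rintro rfl
    rw [dist_self] at d3
    linarith
  refine hbad j hj i hi m hm hji him hjm (Or.inl ⟨?_, d2, d3⟩)
  rw [dist_comm]
  exact d1

/-- in the extreme case the middle point is the midpoint -/
lemma midpoint_norm {a b c : H} (h1 : dist a b ≤ 1) (h2 : dist b c ≤ 1) (h3 : 2 ≤ dist a c) :
    ‖a‖ ^ 2 + ‖c‖ ^ 2 - 2 * ‖b‖ ^ 2 = 2 := by
  rw [dist_eq_norm] at h1 h2 h3
  have e1 : ‖(a - b) + (b - c)‖ ^ 2 + ‖(a - b) - (b - c)‖ ^ 2 = 2 * (‖a - b‖ ^ 2 + ‖b - c‖ ^ 2) := by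
    have := parallelogram_law_with_norm ℝ (a - b) (b - c)
    nlinarith
  have e2 : (a - b) + (b - c) = a - c := by abel
  rw [e2] at e1
  have h4 : 4 ≤ ‖a - c‖ ^ 2 := by nlinarith
  have h5 : ‖a - b‖ ^ 2 ≤ 1 := by nlinarith [norm_nonneg (a - b)]
  have h6 : ‖b - c‖ ^ 2 ≤ 1 := by nlinarith [norm_nonneg (b - c)]
  have h7 : ‖(a - b) - (b - c)‖ ^ 2 = 0 := by
    have := sq_nonneg ‖(a - b) - (b - c)‖
    linarith
  have h8 : (a - b) - (b - c) = 0 := by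
    rw [← norm_eq_zero]
    exact pow_eq_zero_iff (two_ne_zero) |>.1 h7
  have h9 : ‖a - b‖ ^ 2 = 1 := by
    rw [h7] at e1
    linarith
  obtain ⟨u, rfl⟩ : ∃ u, a = b + u := ⟨a - b, by abel⟩
  have hc : c = b - u := by
    have : b + u - b - (b - c) = 0 := h8
    have h10 : c = b - u + ((b + u - b) - (b - c)) := by abel
    rw [h10, this, add_zero]
  subst hc
  have h11 : ‖u‖ ^ 2 = 1 := by simpa using h9
  have := parallelogram_law_with_norm ℝ b u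
  nlinarith

lemma no_bad_mod {a b c : H} (hab : ⌊‖a‖ ^ 2⌋ % 4 = ⌊‖b‖ ^ 2⌋ % 4)
    (hbc : ⌊‖b‖ ^ 2⌋ % 4 = ⌊‖c‖ ^ 2⌋ % 4)
    (h1 : dist a b ≤ 1) (h2 : dist b c ≤ 1) (h3 : 2 ≤ dist a c) : False := by
  have h := midpoint_norm h1 h2 h3
  have a1 := Int.floor_le (‖a‖ ^ 2)
  have a2 := Int.lt_floor_add_one (‖a‖ ^ 2)
  have b1 := Int.floor_le (‖b‖ ^ 2)
  have b2 := Int.lt_floor_add_one (‖b‖ ^ 2)
  have c1 := Int.floor_le (‖c‖ ^ 2)
  have c2 := Int.lt_floor_add_one (‖c‖ ^ 2)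
  have l1 : (0 : ℝ) < ((⌊‖a‖ ^ 2⌋ + ⌊‖c‖ ^ 2⌋ - 2 * ⌊‖b‖ ^ 2⌋ : ℤ) : ℝ) := by
    push_cast; linarith
  have l2 : ((⌊‖a‖ ^ 2⌋ + ⌊‖c‖ ^ 2⌋ - 2 * ⌊‖b‖ ^ 2⌋ : ℤ) : ℝ) < 4 := by
    push_cast; linarith
  have l1' : 0 < ⌊‖a‖ ^ 2⌋ + ⌊‖c‖ ^ 2⌋ - 2 * ⌊‖b‖ ^ 2⌋ := by exact_mod_cast l1
  have l2' : ⌊‖a‖ ^ 2⌋ + ⌊‖c‖ ^ 2⌋ - 2 * ⌊‖b‖ ^ 2⌋ < 4 := by exact_mod_cast l2
  omega

/-- The positive part. -/
lemma P_one : PropertyP 1 := by
  refine ⟨1 / 4, by norm_num, fun n _ x => ?_⟩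
  obtain ⟨r, _, hr⟩ := exists_le_card_fiber_of_nsmul_le_card_of_maps_to
    (s := (univ : Finset (Fin n))) (t := (Finset.Ico (0 : ℤ) 4)) (f := fun i => ⌊‖x i‖ ^ 2⌋ % 4)
    (b := (1 / 4 * n : ℝ)) (fun i _ => by
      rw [mem_Ico]
      exact ⟨Int.emod_nonneg _ (by norm_num), Int.emod_lt_of_pos _ (by norm_num)⟩)
    ⟨0, by simp⟩ (by simp)
  refine ⟨_, hr, ?_⟩
  intro i hi j hj k hk _ _ _ hbad
  have hi' := (mem_filter.1 hi).2
  have hj' := (mem_filter.1 hj).2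
  have hk' := (mem_filter.1 hk).2
  rcases hbad with ⟨h1, h2, h3⟩ | ⟨h1, h2, h3⟩ | ⟨h1, h2, h3⟩
  · exact no_bad_mod (hi'.trans hj'.symm) (hj'.trans hk'.symm) h1 h2 (by linarith)
  · rw [dist_comm] at h1
    exact no_bad_mod (hi'.trans hk'.symm) (hk'.trans hj'.symm) h2 h1 (by linarith)
  · rw [dist_comm] at h1
    exact no_bad_mod (hj'.trans hi'.symm) (hi'.trans hk'.symm) h1 h2 (by linarith)

lemma P_mono {δ δ' : ℝ} (h : δ ≤ δ') (hP : PropertyP δ) : PropertyP δ' := by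
  obtain ⟨l, hl, hP⟩ := hP
  refine ⟨l, hl, fun n hn x => ?_⟩
  obtain ⟨I, hI, hbad⟩ := hP n hn x
  refine ⟨I, hI, fun i hi j hj k hk h1 h2 h3 hb => hbad i hi j hj k hk h1 h2 h3 ?_⟩
  rcases hb with ⟨h1, h2, h3⟩ | ⟨h1, h2, h3⟩ | ⟨h1, h2, h3⟩
  · exact Or.inl ⟨h1, h2, by linarith⟩
  · exact Or.inr (Or.inl ⟨h1, h2, by linarith⟩)
  · exact Or.inr (Or.inr ⟨h1, h2, by linarith⟩)

/-- For `δ > 0` the property `P(δ)` holds exactly when `δ ≥ 1`; so the supremum of the `δ` for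
which `P(δ)` fails is `1`, and it is not attained. -/
theorem result : (∀ δ : ℝ, 0 < δ → (PropertyP δ ↔ 1 ≤ δ)) ∧
    IsLUB {δ : ℝ | 0 < δ ∧ ¬ PropertyP δ} 1 ∧ PropertyP 1 := by
  have key : ∀ δ : ℝ, 0 < δ → (PropertyP δ ↔ 1 ≤ δ) := by
    intro δ h0
    constructor
    · intro h
      by_contra h1
      exact not_P h0 (not_le.1 h1) h
    · intro h
      exact P_mono h P_one
  refine ⟨key, ⟨?_, ?_⟩, P_one⟩
  · rintro δ ⟨h0, h1⟩
    by_contra h2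
    exact h1 ((key δ h0).2 (not_le.1 h2).le)
  · intro b hb
    by_contra h
    push Not at h
    have h2 : max (1 / 2) ((1 + b) / 2) ∈ {δ : ℝ | 0 < δ ∧ ¬ PropertyP δ} := by
      have hlt : max (1 / 2) ((1 + b) / 2) < 1 := max_lt (by norm_num) (by linarith)
      have hpos : 0 < max (1 / 2) ((1 + b) / 2) := lt_max_of_lt_left (by norm_num)
      exact ⟨hpos, not_P hpos hlt⟩
    have h3 := hb h2
    have h4 := le_max_right (1 / 2) ((1 + b) / 2)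
    linarith

end Pool.Agent.Results.MP_8cfbc5_co.BadTriangleThreshold
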